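import Pool.Agent.TH954.G.Thm

/-!
# Galois-fixed elements of fundamental groups of affine curves in characteristic `p`

Let `K` be a finitely generated field of characteristic `p`, for instance a finite field or a global
function field, and let `Ks` be a separable closure of `K`. Let `X` be a smooth affine curve over `K`
with a `K`-rational point `x`, and let `A` be the ring of functions on `X`, with field of fractions
`F`. (It is enough that `A` is an integrally closed domain; `X` can be an affine normal variety of
any dimension.) Let `M` be the maximal extension of `F` in a separable closure of `F` which is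
unramified over `X`, so that `Gal(M/F)` is the etale fundamental group of `X` and the elements which
are the identity on `Ks` form the geometric etale fundamental group. Let `s` be the section of the
map from `Gal(M/F)` to the absolute Galois group of `K` defined by the point `x`.

If an element `γ` of the geometric etale fundamental group is fixed by the action of the absolute
Galois group of `K` defined by `x`, that is, if `γ` commutes with all `s σ`, then `γ = 1`.

The proof uses only Artin-Schreier coverings: they separate the points of the universal covering.
-/

open Pool.Agent.TH954.G

theorem Pool.Agent.Results.MP_a94a03_ag.AffineCurves.result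
    (p : ℕ) [Fact p.Prime] (K A F Ω M Ks : Type)
    [Field K] [Algebra (ZMod p) K] (hK : (⊤ : IntermediateField (ZMod p) K).FG)
    [CommRing A] [IsDomain A] [IsIntegrallyClosed A] [Algebra K A]
    [Field F] [Algebra A F] [IsFractionRing A F]
    [Field Ω] [Algebra F Ω] [Algebra A Ω] [IsScalarTower A F Ω] [IsSepClosure F Ω]
    [Field M] [Algebra F M] [Algebra A M] [Algebra K M] [IsScalarTower A F M] [IsScalarTower K A M]
    (e : M →ₐ[F] Ω) (he : e.fieldRange = unr A F Ω)
    [Field Ks] [Algebra K Ks] [IsSepClosure K Ks] (x : A →ₐ[K] K) (S : PointSection K A F M Ks x)
    (γ : M ≃ₐ[F] M) (hγ : ∀ z, γ (S.j z) = S.j z) (hc : ∀ σ, γ * S.s σ = S.s σ * γ) :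
    γ = 1 :=
  Pool.Agent.TH954.G.main p K A F Ω M Ks hK e he x S γ hγ hc
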